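import Pool.Agent.THS.StmtsN

/-!
# THS, row PCT: tensor products
-/

set_option autoImplicit false

namespace Pool.Agent.THS.H91

open Pool.Agent.THS

variable {K ι : Type} [Field K] [Finite ι]

theorem le_nv (v : AbsoluteValue K ℝ) (x : ι → K) (i : ι) : v (x i) ≤ nv v x :=
  le_ciSup (f := fun i => v (x i)) (Set.finite_range _).bddAbove i

theorem nv_pos (v : AbsoluteValue K ℝ) {x : ι → K} (hx : x ≠ 0) : 0 < nv v x := by
  obtain ⟨i, hi⟩ := Function.ne_iff.1 hx
  exact lt_of_lt_of_le (v.pos hi) (le_nv v x i)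

theorem nv_att (v : AbsoluteValue K ℝ) {x : ι → K} (hx : x ≠ 0) : ∃ p, v (x p) = nv v x := by
  obtain ⟨i, hi⟩ := Function.ne_iff.1 hx
  haveI : Nonempty ι := ⟨i⟩
  exact exists_eq_ciSup_of_finite

theorem half {κ : Type} [Finite κ] (v : AbsoluteValue K ℝ) (S S' : ι → K) (D D' : κ → K) (l : K)
    (hv : IsNonarchimedean v) (hS' : S' ≠ 0) (hD : D ≠ 0)
    (h : ∀ i q, v (S i * D q - l * (S' i * D' q)) < nv v S * nv v D) : PC v S S' := by
  intro i j
  obtain ⟨q, hq⟩ := nv_att v hD
  have hDp := nv_pos v hD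
  have hSp := nv_pos v hS'
  have hb : ∀ a b, v ((S a * D q - l * (S' a * D' q)) * S' b) < nv v S * nv v D * nv v S' := by
    intro a b
    rw [map_mul]
    rcases eq_or_lt_of_le (v.nonneg (S' b)) with h0 | h0
    · rw [← h0, mul_zero]
      have h1 := h a q
      have h2 : 0 < nv v S * nv v D := lt_of_le_of_lt (v.nonneg _) h1
      positivity
    · exact lt_of_lt_of_le (mul_lt_mul_of_pos_right (h a q) h0)
        (mul_le_mul_of_nonneg_left (le_nv v S' b)
          (le_of_lt (lt_of_le_of_lt (v.nonneg _) (h a q))))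
  have e : (S i * S' j - S j * S' i) * D q =
      (S i * D q - l * (S' i * D' q)) * S' j + -((S j * D q - l * (S' j * D' q)) * S' i) := by
    ring
  have h3 : v ((S i * S' j - S j * S' i) * D q) < nv v S * nv v D * nv v S' := by
    rw [e]
    refine lt_of_le_of_lt (hv _ _) (max_lt (hb i j) ?_)
    rw [map_neg_eq_map]
    exact hb j i
  rw [map_mul, hq] at h3
  have h4 : nv v S * nv v D * nv v S' = nv v S * nv v S' * nv v D := by ring
  rw [h4] at h3
  exact lt_of_mul_lt_mul_right h3 hDp.le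

theorem pct : PctStatement := by
  intro K ι κ _ _ _ v S S' D D' l hv hS hS' hD hD' h
  refine ⟨half v S S' D D' l hv hS' hD h, half v D D' S S' l hv hD' hS fun q i => ?_⟩
  rw [mul_comm (D q), mul_comm (D' q), mul_comm (nv v D)]
  exact h i q

end Pool.Agent.THS.H91
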