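import Pool.Agent.THS.StmtsT

/-!
# THS, row SQM: geometric-quadratic sequences
-/

set_option autoImplicit false

namespace Pool.Agent.THS.H91

open Pool.Agent.THS

theorem tri (M : ℕ) : (M + 2) * (M + 2 - 1) / 2 + M * (M - 1) / 2 =
    2 * ((M + 1) * (M + 1 - 1) / 2) + 1 := by
  have e1 : (M + 2) * (M + 2 - 1) = 2 * (M * (M - 1) / 2 + 2 * M + 1) := by
    cases M with
    | zero => rfl
    | succ k =>
      have h : 2 ∣ (k + 1) * k := by
        rw [mul_comm]
        exact (Nat.even_mul_succ_self k).two_dvd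
      obtain ⟨c, hc⟩ := h
      simp only [Nat.add_sub_cancel]
      rw [hc, Nat.mul_div_cancel_left _ (by norm_num : 0 < 2)]
      have : (k + 1 + 2) * (k + 1 + 2 - 1) = (k + 1) * k + 2 * (2 * (k + 1) + 1) := by
        have : k + 1 + 2 - 1 = k + 2 := rfl
        rw [this]
        ring
      rw [this, hc]
      ring
  have e2 : (M + 1) * (M + 1 - 1) = 2 * (M * (M - 1) / 2 + M) := by
    cases M with
    | zero => rfl
    | succ k =>
      have h : 2 ∣ (k + 1) * k := by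
        rw [mul_comm]
        exact (Nat.even_mul_succ_self k).two_dvd
      obtain ⟨c, hc⟩ := h
      simp only [Nat.add_sub_cancel]
      rw [hc, Nat.mul_div_cancel_left _ (by norm_num : 0 < 2)]
      have : (k + 1 + 1) * (k + 1) = (k + 1) * k + 2 * (k + 1) := by ring
      rw [this, hc]
      ring
  rw [e1, e2, Nat.mul_div_cancel_left _ (by norm_num : 0 < 2),
    Nat.mul_div_cancel_left _ (by norm_num : 0 < 2)]
  ring

theorem sqm : SqmStatement := by
  intro a lam hl h0 h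
  have h1 : a 1 ≠ 0 := by
    intro h2
    have h3 := h 0
    rw [zero_add, h2, zero_mul] at h3
    exact (mul_ne_zero hl (pow_ne_zero 2 h0)) h3.symm
  refine ⟨h1, ?_⟩
  have key : ∀ M : ℕ, (a M * a 0 ^ M = a 0 * a 1 ^ M * lam ^ (M * (M - 1) / 2)) ∧
      (a ((M + 1 : ℕ) : ℤ) * a 0 ^ (M + 1) =
        a 0 * a 1 ^ (M + 1) * lam ^ ((M + 1) * (M + 1 - 1) / 2)) := by
    intro M
    induction M with
    | zero =>
      constructor
      · simp
      · simp [mul_comm]
    | succ M ih =>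
      obtain ⟨i1, i2⟩ := ih
      refine ⟨i2, ?_⟩
      have hne : a M * a 0 ^ M ≠ 0 := by
        rw [i1]
        exact mul_ne_zero (mul_ne_zero h0 (pow_ne_zero _ h1)) (pow_ne_zero _ hl)
      have r := h ((M + 1 : ℕ) : ℤ)
      have c1 : ((M + 1 : ℕ) : ℤ) + 1 = ((M + 1 + 1 : ℕ) : ℤ) := by push_cast; ring
      have c2 : ((M + 1 : ℕ) : ℤ) - 1 = (M : ℤ) := by push_cast; ring
      rw [c1, c2] at r
      apply mul_right_cancel₀ hne
      calc a ((M + 1 + 1 : ℕ) : ℤ) * a 0 ^ (M + 1 + 1) * (a M * a 0 ^ M)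
          = (a ((M + 1 + 1 : ℕ) : ℤ) * a M) * a 0 ^ (2 * M + 2) := by ring
        _ = lam * (a ((M + 1 : ℕ) : ℤ) * a 0 ^ (M + 1)) ^ 2 := by rw [r]; ring
        _ = lam * (a 0 * a 1 ^ (M + 1) * lam ^ ((M + 1) * (M + 1 - 1) / 2)) ^ 2 := by rw [i2]
        _ = a 0 ^ 2 * a 1 ^ (2 * M + 2) * lam ^ (2 * ((M + 1) * (M + 1 - 1) / 2) + 1) := by ring
        _ = a 0 ^ 2 * a 1 ^ (2 * M + 2) *
              lam ^ ((M + 2) * (M + 2 - 1) / 2 + M * (M - 1) / 2) := by rw [tri]
        _ = a 0 * a 1 ^ (M + 1 + 1) * lam ^ ((M + 1 + 1) * (M + 1 + 1 - 1) / 2) *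
              (a 0 * a 1 ^ M * lam ^ (M * (M - 1) / 2)) := by
            rw [pow_add lam]
            have : (M + 2) * (M + 2 - 1) / 2 = (M + 1 + 1) * (M + 1 + 1 - 1) / 2 := rfl
            rw [this]
            ring
        _ = _ := by rw [← i1]
  exact fun M => (key M).1

end Pool.Agent.THS.H91
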